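import Mathlib
import Pool.Agent.W893.SY.Defs

/-!
# LOC: good partial assignments can be extended (a step for the project SY)
-/

namespace Pool.Agent.W324.SY

open Finset Pool.Agent.W893.SY

variable {k N M : ℕ}

/-- The support of a nonzero combination is not much larger than that of its form. -/
theorem expE (r : ℕ) (ν : Fin M → Fin k → Fin N) (D : AddSubgroup (Fin k → ZMod 2)) (hk : 3 ≤ k)
    (hexp : ∀ Q : Finset (Fin M), Q.Nonempty → Q.card ≤ r →
      (5 * k - 7) * Q.card < 5 * (Q.biUnion fun c => univ.image (ν c)).card)
    (hD : ∀ h ∈ D, h ≠ 0 → 3 ≤ (univ.filter fun i => h i ≠ 0).card)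
    (h : Fin M → Fin k → ZMod 2) (hmem : ∀ c, h c ∈ D)
    (hr : (univ.filter fun c => h c ≠ 0).card ≤ r)
    (hne : (univ.filter fun c => h c ≠ 0).Nonempty) :
    (univ.filter fun c => h c ≠ 0).card < 5 * (univ.filter fun p => lf ν h p ≠ 0).card := by
  classical
  set Q := univ.filter fun c => h c ≠ 0 with hQ
  have h1 := hexp Q hne hr
  let deg : Fin k × Fin N → ℕ := fun p => (Q.filter fun c => ν c p.1 = p.2).card
  have hdeg : ∑ p, deg p = k * Q.card := by
    have : ∀ p : Fin k × Fin N, deg p = ∑ c ∈ Q, if ν c p.1 = p.2 then 1 else 0 := by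
      intro p; simp only [deg, card_filter]
    simp_rw [this]
    rw [sum_comm]
    have h2 : ∀ c ∈ Q, (∑ p : Fin k × Fin N, if ν c p.1 = p.2 then 1 else 0) = k := by
      intro c _
      rw [Fintype.sum_prod_type]
      simp
    rw [sum_congr rfl h2, sum_const, smul_eq_mul, mul_comm]
  let U : Finset (Fin k × Fin N) := univ.filter fun p => 1 ≤ deg p
  let B : Finset (Fin k × Fin N) := univ.filter fun p => deg p = 1
  have hU : (Q.biUnion fun c => univ.image (ν c)).card ≤ U.card := by
    calc (Q.biUnion fun c => univ.image (ν c)).card ≤ (U.image Prod.snd).card := by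
          apply card_le_card
          intro v hv
          rw [mem_biUnion] at hv
          obtain ⟨c, hc, hv⟩ := hv
          rw [mem_image] at hv
          obtain ⟨i, _, rfl⟩ := hv
          rw [mem_image]
          refine ⟨(i, ν c i), ?_, rfl⟩
          simp only [U, mem_filter, mem_univ, true_and, deg]
          exact card_pos.2 ⟨c, mem_filter.2 ⟨hc, rfl⟩⟩
      _ ≤ U.card := card_image_le
  have hUB : 2 * U.card ≤ k * Q.card + B.card := by
    have e1 : ∑ p ∈ U, 2 ≤ ∑ p ∈ U, (deg p + if deg p = 1 then 1 else 0) := by
      apply sum_le_sum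
      intro p hp
      have : 1 ≤ deg p := (mem_filter.1 hp).2
      split_ifs <;> omega
    have e2 : ∑ p ∈ U, (deg p + if deg p = 1 then 1 else 0) ≤
        ∑ p, (deg p + if deg p = 1 then 1 else 0) :=
      sum_le_sum_of_subset (subset_univ _)
    have e4 := e1.trans e2
    rw [sum_add_distrib, hdeg] at e4
    have e3 : (∑ p : Fin k × Fin N, if deg p = 1 then 1 else 0) = B.card := by
      simp only [B, card_filter]
    rw [e3, sum_const, smul_eq_mul] at e4
    omega
  let B0 : Finset (Fin k × Fin N) := B.filter fun p => lf ν h p = 0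
  have hB0 : B0.card ≤ (k - 3) * Q.card := by
    have hsub : B0 ⊆ Q.biUnion fun c => (univ.filter fun i => h c i = 0).image
        fun i => (i, ν c i) := by
      intro p hp
      rw [mem_filter] at hp
      obtain ⟨hpB, hp0⟩ := hp
      have hp1 : (Q.filter fun c => ν c p.1 = p.2).card = 1 := (mem_filter.1 hpB).2
      obtain ⟨c, hc⟩ := card_eq_one.1 hp1
      have hcm : c ∈ Q.filter fun c => ν c p.1 = p.2 := by rw [hc]; exact mem_singleton_self c
      obtain ⟨hcQ, hcp⟩ := mem_filter.1 hcm
      rw [mem_biUnion]
      refine ⟨c, hcQ, ?_⟩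
      rw [mem_image]
      refine ⟨p.1, ?_, by rw [hcp]⟩
      rw [mem_filter]
      refine ⟨mem_univ _, ?_⟩
      rw [← hp0]
      unfold lf
      rw [sum_eq_single c]
      · rw [if_pos hcp]
      · intro b _ hb
        by_cases hbp : ν b p.1 = p.2
        · rw [if_pos hbp]
          by_contra hne0
          have hbQ : b ∈ Q := by
            rw [hQ, mem_filter]
            refine ⟨mem_univ _, ?_⟩
            intro h0
            apply hne0
            rw [h0]; rfl
          have : b ∈ Q.filter fun c => ν c p.1 = p.2 := mem_filter.2 ⟨hbQ, hbp⟩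
          rw [hc, mem_singleton] at this
          exact hb this
        · rw [if_neg hbp]
      · intro hh; exact absurd (mem_univ _) hh
    calc B0.card ≤ _ := card_le_card hsub
      _ ≤ ∑ c ∈ Q, ((univ.filter fun i => h c i = 0).image fun i => (i, ν c i)).card :=
          card_biUnion_le
      _ ≤ ∑ c ∈ Q, (k - 3) := by
          apply sum_le_sum
          intro c hc
          have hcne : h c ≠ 0 := (mem_filter.1 hc).2
          have h3 := hD (h c) (hmem c) hcne
          have h4 : (univ.filter fun i => h c i = 0).card +
              (univ.filter fun i => ¬ h c i = 0).card = k := by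
            have := card_filter_add_card_filter_not (s := (univ : Finset (Fin k)))
              (p := fun i => h c i = 0)
            simpa using this
          refine card_image_le.trans ?_
          have h5 : (univ.filter fun i => ¬ h c i = 0).card =
              (univ.filter fun i => h c i ≠ 0).card := rfl
          omega
      _ = (k - 3) * Q.card := by rw [sum_const, smul_eq_mul, mul_comm]
  have hB : B.card ≤ B0.card + (univ.filter fun p => lf ν h p ≠ 0).card := by
    have := card_filter_add_card_filter_not (s := B) (p := fun p => lf ν h p = 0)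
    have h6 : (B.filter fun p => ¬ lf ν h p = 0).card ≤
        (univ.filter fun p => lf ν h p ≠ 0).card := by
      apply card_le_card
      intro p hp
      rw [mem_filter] at hp ⊢
      exact ⟨mem_univ _, hp.2⟩
    have h7 : (B.filter fun p => lf ν h p = 0).card = B0.card := rfl
    omega
  obtain ⟨j, rfl⟩ : ∃ j, k = j + 3 := ⟨k - 3, by omega⟩
  have e5 : (5 * (j + 3) - 7) * Q.card = 5 * j * Q.card + 8 * Q.card := by
    have : 5 * (j + 3) - 7 = 5 * j + 8 := by omega
    rw [this, add_mul]
  have e6 : j + 3 - 3 = j := by omega
  rw [e5] at h1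
  rw [e6] at hB0
  have e7 : (j + 3) * Q.card = j * Q.card + 3 * Q.card := by rw [add_mul]
  rw [e7] at hUB
  have e8 : 5 * j * Q.card = 5 * (j * Q.card) := by ring
  rw [e8] at h1
  omega

theorem lf_add (ν : Fin M → Fin k → Fin N) (h h' : Fin M → Fin k → ZMod 2)
    (p : Fin k × Fin N) : lf ν (h + h') p = lf ν h p + lf ν h' p := by
  unfold lf
  rw [← sum_add_distrib]
  apply sum_congr rfl
  intro c _
  split_ifs <;> simp

theorem zmod2 (x : ZMod 2) : x = 0 ∨ x = 1 := by
  revert x; decide

theorem zmod2_ne (x y : ZMod 2) (h : x ≠ y) : x = y + 1 := by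
  revert x y; decide

theorem main : S_loc := by
  classical
  intro k N M r ν D β hk hexp hD
  have hE := fun h hmem hr hne => expE r ν D hk hexp hD h hmem hr hne
  refine ⟨?_, ?_⟩
  · intro a h hmem hr hlf
    have hz : ∀ p, lf ν h p = 0 := fun p => hlf p (by simp)
    have h0 : ∀ c, h c = 0 := by
      by_contra hcon
      push Not at hcon
      obtain ⟨c, hc⟩ := hcon
      have h1 := hE h hmem hr ⟨c, mem_filter.2 ⟨mem_univ _, hc⟩⟩
      have h2 : (univ.filter fun p => lf ν h p ≠ 0) = ∅ := by
        apply filter_eq_empty_iff.2
        intro p _ hp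
        exact hp (hz p)
      rw [h2, card_empty] at h1
      omega
    have e1 : ∑ p, lf ν h p * a p = 0 := sum_eq_zero fun p _ => by rw [hz p, zero_mul]
    have e2 : ∑ c, ∑ i, h c i * β c i = 0 := by
      apply sum_eq_zero
      intro c _
      apply sum_eq_zero
      intro i _
      rw [h0 c]; simp
    rw [e1, e2]
  · intro V a p hV hcard
    by_cases hpV : p ∈ V
    · refine ⟨a, ?_, fun _ _ => rfl⟩
      rwa [insert_eq_of_mem hpV]
    by_contra hcon
    push Not at hcon
    have hupd : ∀ x : ZMod 2, ∀ q ∈ V, Function.update a p x q = a q := by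
      intro x q hq
      rw [Function.update_of_ne]
      rintro rfl
      exact hpV hq
    have hfail : ∀ x : ZMod 2, ∃ h : Fin M → Fin k → ZMod 2, (∀ c, h c ∈ D) ∧
        (univ.filter fun c => h c ≠ 0).card ≤ r ∧ (∀ q, q ∉ insert p V → lf ν h q = 0) ∧
        ∑ q, lf ν h q * Function.update a p x q ≠ ∑ c, ∑ i, h c i * β c i := by
      intro x
      have h1 : ¬ GoodOn ν D β r (insert p V) (Function.update a p x) := by
        intro hg
        obtain ⟨q, hq, hq'⟩ := hcon _ hg
        exact hq' (hupd x q hq)
      unfold GoodOn at h1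
      push Not at h1
      obtain ⟨h, h2, h3, h4, h5⟩ := h1
      exact ⟨h, h2, h3, h4, h5⟩
    -- facts about such an h
    have hfact : ∀ (x : ZMod 2) (h : Fin M → Fin k → ZMod 2), (∀ c, h c ∈ D) →
        (univ.filter fun c => h c ≠ 0).card ≤ r → (∀ q, q ∉ insert p V → lf ν h q = 0) →
        ∑ q, lf ν h q * Function.update a p x q ≠ ∑ c, ∑ i, h c i * β c i →
        lf ν h p = 1 ∧ (univ.filter fun c => h c ≠ 0).card < 5 * (V.card + 1) := by
      intro x h h2 h3 h4 h5
      have hp1 : lf ν h p = 1 := by
        rcases zmod2 (lf ν h p) with h0 | h0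
        · exfalso
          apply h5
          have h6 : ∀ q, q ∉ V → lf ν h q = 0 := by
            intro q hq
            by_cases hqp : q = p
            · rw [hqp]; exact h0
            · apply h4
              rw [mem_insert]
              push Not
              exact ⟨hqp, hq⟩
          rw [← hV h h2 h3 h6]
          apply sum_congr rfl
          intro q _
          by_cases hqp : q = p
          · rw [hqp, h0, zero_mul, zero_mul]
          · rw [Function.update_of_ne hqp]
        · exact h0
      refine ⟨hp1, ?_⟩
      have hne : (univ.filter fun c => h c ≠ 0).Nonempty := by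
        rw [nonempty_iff_ne_empty]
        intro he
        have h7 : ∀ c, h c = 0 := by
          intro c
          by_contra hc
          have : c ∈ (univ.filter fun c => h c ≠ 0) := mem_filter.2 ⟨mem_univ _, hc⟩
          rw [he] at this
          simp at this
        have h8 : lf ν h p = 0 := by
          unfold lf
          apply sum_eq_zero
          intro c _
          rw [h7 c]
          simp
        rw [h8] at hp1
        exact absurd hp1 (by decide)
      have h9 := hE h h2 h3 hne
      have h10 : (univ.filter fun q => lf ν h q ≠ 0).card ≤ V.card + 1 := by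
        refine (card_le_card (?_ : _ ⊆ insert p V)).trans (card_insert_le _ _)
        intro q hq
        by_contra hq'
        exact (mem_filter.1 hq).2 (h4 q hq')
      omega
    obtain ⟨h0, a2, a3, a4, a5⟩ := hfail 0
    obtain ⟨h1, b2, b3, b4, b5⟩ := hfail 1
    obtain ⟨a6, a7⟩ := hfact 0 h0 a2 a3 a4 a5
    obtain ⟨b6, b7⟩ := hfact 1 h1 b2 b3 b4 b5
    have c2 : ∀ c, (h0 + h1) c ∈ D := fun c => D.add_mem (a2 c) (b2 c)
    have c3 : (univ.filter fun c => (h0 + h1) c ≠ 0).card ≤ r := by
      have hsub : (univ.filter fun c => (h0 + h1) c ≠ 0) ⊆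
          (univ.filter fun c => h0 c ≠ 0) ∪ (univ.filter fun c => h1 c ≠ 0) := by
        intro c hc
        rw [mem_union, mem_filter, mem_filter]
        by_contra hcc
        push Not at hcc
        apply (mem_filter.1 hc).2
        rw [Pi.add_apply, hcc.1 (mem_univ _), hcc.2 (mem_univ _), add_zero]
      have := (card_le_card hsub).trans (card_union_le _ _)
      omega
    have c4 : ∀ q, q ∉ V → lf ν (h0 + h1) q = 0 := by
      intro q hq
      rw [lf_add]
      by_cases hqp : q = p
      · rw [hqp, a6, b6]; decide
      · have : q ∉ insert p V := by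
          rw [mem_insert]
          push Not
          exact ⟨hqp, hq⟩
        rw [a4 q this, b4 q this, add_zero]
    have c5 := hV (h0 + h1) c2 c3 c4
    have c6 : ∑ q, lf ν (h0 + h1) q * a q =
        ∑ q, lf ν h0 q * Function.update a p 0 q + ∑ q, lf ν h1 q * Function.update a p 0 q := by
      rw [← sum_add_distrib]
      apply sum_congr rfl
      intro q _
      by_cases hqp : q = p
      · rw [hqp, c4 p hpV]; simp
      · rw [Function.update_of_ne hqp, lf_add, add_mul]
    have c7 : ∑ q, lf ν h1 q * Function.update a p 1 q =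
        ∑ q, lf ν h1 q * Function.update a p 0 q + 1 := by
      have : ∀ q, lf ν h1 q * Function.update a p 1 q =
          lf ν h1 q * Function.update a p 0 q + if q = p then 1 else 0 := by
        intro q
        by_cases hqp : q = p
        · rw [hqp, b6]; simp
        · rw [Function.update_of_ne hqp, Function.update_of_ne hqp, if_neg hqp, add_zero]
      simp_rw [this]
      rw [sum_add_distrib, sum_ite_eq' univ p (fun _ => (1 : ZMod 2))]
      simp
    have c8 : ∑ c, ∑ i, (h0 + h1) c i * β c i =
        ∑ c, ∑ i, h0 c i * β c i + ∑ c, ∑ i, h1 c i * β c i := by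
      rw [← sum_add_distrib]
      apply sum_congr rfl
      intro c _
      rw [← sum_add_distrib]
      apply sum_congr rfl
      intro i _
      rw [Pi.add_apply, Pi.add_apply, add_mul]
    rw [c6, c8] at c5
    rw [c7] at b5
    have d0 := zmod2_ne _ _ a5
    have d1 := zmod2_ne _ _ b5
    rw [d0] at c5
    have d2 : ∑ q, lf ν h1 q * Function.update a p 0 q = ∑ c, ∑ i, h1 c i * β c i := by
      have := add_right_cancel d1
      exact this
    rw [d2] at c5
    generalize (∑ c, ∑ i, h0 c i * β c i) = s at c5
    generalize (∑ c, ∑ i, h1 c i * β c i) = t at c5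
    revert c5
    revert s t
    decide

end Pool.Agent.W324.SY
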